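import Pool.Agent.H241R3.FV.Stmts

/-!
# Conformally flat collars: definition
-/

set_option autoImplicit false

open MeasureTheory Metric Set Filter Topology InnerProductGeometry

namespace Pool.Agent.H241R3.CC

open Pool.Agent.H241R3.FV

/-- A conformally flat collar of `S^d` in a metric space `M`: a map to `M` from the closed shell
`r0 ≤ |x| ≤ 1` of `ℝ^(d+1)` and a continuous positive function `F` on the shell, such that
the distance in `M` is at most the length of curves for the metric `F(x)² |dx|²`. The boundary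
sphere is the unit sphere with its standard identification with `S^d`. -/
structure ConfCollar (d : ℕ) (M : Type) [MetricSpace M] where
  /-- inner radius -/
  r0 : ℝ
  r0_pos : 0 < r0
  r0_lt : r0 < 1
  /-- conformal factor -/
  F : E (d + 1) → ℝ
  cont : ContinuousOn F (closedBall 0 1 \ ball 0 r0)
  pos : ∀ x ∈ closedBall (0 : E (d + 1)) 1 \ ball 0 r0, 0 < F x
  /-- parametrisation -/
  map : E (d + 1) → M
  dist_le : ∀ (a b : ℝ) (γ : ℝ → E (d + 1)), a ≤ b → ContDiff ℝ 1 γ →
    (∀ t ∈ Icc a b, γ t ∈ closedBall (0 : E (d + 1)) 1 \ ball 0 r0) →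
    dist (map (γ a)) (map (γ b)) ≤ ∫ t in a..b, F (γ t) * ‖deriv γ t‖

/-- The volume of the collar for the metric `F(x)² |dx|²`. -/
noncomputable def ConfCollar.vol {d : ℕ} {M : Type} [MetricSpace M] (S : ConfCollar d M) : ENNReal :=
  ∫⁻ x in ball (0 : E (d + 1)) 1 \ ball 0 S.r0, ENNReal.ofReal (S.F x ^ (d + 1))

/-- Antipodal points of the boundary sphere have distance at least `π`. -/
def ConfCollar.Antipodal {d : ℕ} {M : Type} [MetricSpace M] (S : ConfCollar d M) : Prop :=
  ∀ x : E (d + 1), ‖x‖ = 1 → Real.pi ≤ dist (S.map x) (S.map (-x))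

/-- Either antipodal points of the inner sphere are glued (so that the shell becomes `ℝP^(d+1)`
minus a ball), or the inner sphere is at distance at least `π/2` from the boundary sphere. -/
def ConfCollar.Core {d : ℕ} {M : Type} [MetricSpace M] (S : ConfCollar d M) : Prop :=
  (∀ x : E (d + 1), ‖x‖ = S.r0 → S.map x = S.map (-x)) ∨
  (∀ x y : E (d + 1), ‖x‖ = 1 → ‖y‖ = S.r0 → Real.pi / 2 ≤ dist (S.map x) (S.map y))

end Pool.Agent.H241R3.CC
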