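import Pool.Agent.H241R3.CC.Stmts
import Pool.Agent.H241R3.CF.Final

set_option autoImplicit false

open MeasureTheory Metric Set Filter Topology InnerProductGeometry

namespace Pool.Agent.H241R3.CC

open Pool.Agent.H241R3.FV
open Pool.Agent.H241R3.CF (TaskAvg TaskCont TaskLen TaskOne TaskLayer TaskWal TaskVol psi PsiCond ga
  pt kap)

/-- The volume bound from the length condition. -/
theorem core_ineq (hPolar : TaskPolar) (hInv : TaskInv) (hAvg : TaskAvg) (hCont : TaskCont)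
    (hOne : TaskOne) (hLayer : TaskLayer) (hWal : TaskWal)
    (hVol : TaskVol) (d : ℕ) (hd : 1 ≤ d) (F : E (d + 1) → ℝ)
    (hF : ContinuousOn F (closedBall 0 1 \ {0}))
    (hF0 : ∀ x ∈ closedBall (0 : E (d + 1)) 1 \ {0}, 0 < F x) (hcond : PsiCond (psi F)) :
    ENNReal.ofReal ((d + 2 : ℝ) * om (d + 2) / 2) ≤
      ∫⁻ x in ball (0 : E (d + 1)) 1, ENNReal.ofReal (F x ^ (d + 1)) := by
  set ψ : ℝ → ℝ := psi F with hψ
  obtain ⟨hc, hp⟩ := hCont d F hF hF0
  obtain ⟨hk, hconst⟩ := hWal hPolar d hd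
  have hvol := hVol hInv hAvg d hd F hF hF0
  have hlay := hLayer d hd ψ hc hp
  -- lower bound of the layer integral
  have hcontI : Continuous fun s : ℝ => s ^ (d - 1) * ((1 - s) * (Real.pi / 2)) := by fun_prop
  have h1 : ENNReal.ofReal (∫ s in (0 : ℝ)..1, s ^ (d - 1) * ((1 - s) * (Real.pi / 2))) ≤
      ∫⁻ s in Ioi (0 : ℝ), ENNReal.ofReal (s ^ (d - 1)) *
        (∫⁻ t in Iic (0 : ℝ), ENNReal.ofReal √(ψ t ^ 2 - s ^ 2)) := by
    rw [intervalIntegral.integral_of_le zero_le_one, integral_Ioc_eq_integral_Ioo,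
      ofReal_integral_eq_lintegral_ofReal]
    · calc ∫⁻ s in Ioo (0 : ℝ) 1, ENNReal.ofReal (s ^ (d - 1) * ((1 - s) * (Real.pi / 2)))
          ≤ ∫⁻ s in Ioo (0 : ℝ) 1, ENNReal.ofReal (s ^ (d - 1)) *
            (∫⁻ t in Iic (0 : ℝ), ENNReal.ofReal √(ψ t ^ 2 - s ^ 2)) := by
            refine setLIntegral_mono' measurableSet_Ioo fun s hs => ?_
            rw [ENNReal.ofReal_mul (pow_nonneg hs.1.le _)]
            gcongr
            exact hOne ψ hc hp hcond s hs.1 hs.2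
        _ ≤ _ := lintegral_mono_set Ioo_subset_Ioi_self
    · exact (hcontI.integrableOn_Icc (a := 0) (b := 1)).mono_set Ioo_subset_Icc_self
    · refine (ae_restrict_mem measurableSet_Ioo).mono fun s hs => ?_
      have h1 : 0 ≤ 1 - s := by linarith [hs.2]
      have h2 : 0 ≤ s ^ (d - 1) := pow_nonneg hs.1.le _
      have h3 := Real.pi_pos
      show 0 ≤ s ^ (d - 1) * ((1 - s) * (Real.pi / 2))
      positivity
  rw [hlay] at h1
  have hom : 0 ≤ (d + 1 : ℝ) * om (d + 1) := by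
    unfold om
    positivity
  have h2 : ENNReal.ofReal ((∫ s in (0 : ℝ)..1, s ^ (d - 1) * ((1 - s) * (Real.pi / 2))) / kap d) ≤
      ∫⁻ t in Iic (0 : ℝ), ENNReal.ofReal (ψ t ^ (d + 1)) := by
    rw [ENNReal.ofReal_div_of_pos hk]
    refine ENNReal.div_le_of_le_mul ?_
    rw [mul_comm]
    exact h1
  refine le_trans ?_ hvol
  rw [← hconst, ENNReal.ofReal_mul hom]
  gcongr

theorem mainCC_of (hPolar : TaskPolar) (hInv : TaskInv) (hAvg : TaskAvg) (hCont : TaskCont)
    (hLen : TaskLen) (hOne : TaskOne) (hLayer : TaskLayer) (hWal : TaskWal)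
    (hVol : TaskVol) (hExt : TaskExt) (hExtVol : TaskExtVol) (hPath : TaskPathC)
    (hWidth : TaskWidthC) : MainCC := by
  intro d hd M _ S hS hcore
  refine ENNReal.le_of_forall_pos_le_add fun ε hε _ => ?_
  obtain ⟨K, hK⟩ := hExtVol d S.r0 S.r0_pos S.r0_lt S.F S.cont S.pos ε hε
  obtain ⟨hc, hp, he⟩ := hExt d S.r0 S.r0_pos S.r0_lt K S.F S.cont S.pos
  rw [ENNReal.ofReal_coe_nnreal] at hK
  refine le_trans (core_ineq hPolar hInv hAvg hCont hOne hLayer hWal hVol d hd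
    (ext S.r0 K S.F) hc hp ?_) hK
  have hdist : ∀ (a b : ℝ) (γ : ℝ → E (d + 1)), a ≤ b → ContDiff ℝ 1 γ →
      (∀ t ∈ Icc a b, γ t ∈ closedBall (0 : E (d + 1)) 1 \ ball 0 S.r0) →
      dist (S.map (γ a)) (S.map (γ b)) ≤ ∫ t in a..b, ext S.r0 K S.F (γ t) * ‖deriv γ t‖ := by
    intro a b γ hab hγ hin
    refine (S.dist_le a b γ hab hγ hin).trans (le_of_eq ?_)
    refine intervalIntegral.integral_congr fun t ht => ?_
    rw [uIcc_of_le hab] at ht
    have h1 := (hin t ht).2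
    rw [mem_ball_zero_iff, not_lt] at h1
    show S.F (γ t) * ‖deriv γ t‖ = ext S.r0 K S.F (γ t) * ‖deriv γ t‖
    rw [he (γ t) h1]
  have hpath := hPath hAvg hLen d hd S.r0 S.r0_pos S.r0_lt (ext S.r0 K S.F) hc hp M S.map hdist hS
  have hwidth := hWidth hAvg hLen d hd S.r0 S.r0_pos S.r0_lt (ext S.r0 K S.F) hc hp M S.map
    hdist hS hcore
  obtain ⟨hψc, hψp⟩ := hCont d (ext S.r0 K S.F) hc hp
  have hA : 0 < -Real.log S.r0 := by
    have := Real.log_neg S.r0_pos S.r0_lt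
    linarith
  set A : ℝ := -Real.log S.r0 with hAdef
  set ψ : ℝ → ℝ := psi (ext S.r0 K S.F) with hψ
  intro a b w ha hb hw hsum
  rcases le_or_gt a A with haA | haA
  · exact hpath a b w ha haA hb hw hsum
  have hcm : ContinuousOn (fun r : ℝ => ψ (-r)) (Icc 0 a) :=
    hψc.comp continuous_neg.continuousOn fun r hr => by
      simp only [mem_Iic, Left.neg_nonpos_iff]
      exact hr.1
  have hcw : ContinuousOn (fun r : ℝ => ψ (-r) * √(1 + w r ^ 2)) (Icc 0 a) :=
    hcm.mul (by fun_prop)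
  have hi1 : IntervalIntegrable (fun r : ℝ => ψ (-r) * √(1 + w r ^ 2)) volume 0 A := by
    refine ContinuousOn.intervalIntegrable ?_
    rw [uIcc_of_le hA.le]
    exact hcw.mono (Icc_subset_Icc_right haA.le)
  have hi2 : IntervalIntegrable (fun r : ℝ => ψ (-r) * √(1 + w r ^ 2)) volume A a := by
    refine ContinuousOn.intervalIntegrable ?_
    rw [uIcc_of_le haA.le]
    exact hcw.mono (Icc_subset_Icc_left hA.le)
  have hi3 : IntervalIntegrable (fun r : ℝ => ψ (-r)) volume 0 A := by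
    refine ContinuousOn.intervalIntegrable ?_
    rw [uIcc_of_le hA.le]
    exact hcm.mono (Icc_subset_Icc_right haA.le)
  have hnn : 0 ≤ ∫ r in A..a, ψ (-r) * √(1 + w r ^ 2) := by
    refine intervalIntegral.integral_nonneg haA.le fun r hr => ?_
    have := hψp (-r) (by linarith [hr.1])
    positivity
  have hmono : (∫ r in (0 : ℝ)..A, ψ (-r)) ≤ ∫ r in (0 : ℝ)..A, ψ (-r) * √(1 + w r ^ 2) := by
    refine intervalIntegral.integral_mono_on hA.le hi3 hi1 fun r hr => ?_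
    have h1 := hψp (-r) (by linarith [hr.1])
    have h2 : 1 ≤ √(1 + w r ^ 2) := by
      rw [Real.one_le_sqrt]
      nlinarith [sq_nonneg (w r)]
    nlinarith
  have hadd := intervalIntegral.integral_add_adjacent_intervals hi1 hi2
  have hb' : 0 ≤ ψ (-a) * b := mul_nonneg (hψp (-a) (by linarith)).le hb
  rw [← hadd]
  linarith

end Pool.Agent.H241R3.CC
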