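import Pool.Agent.H241R3.CC.Defs
import Pool.Agent.H241R3.CF.Stmts

/-!
# Conformally flat collars: tasks
-/

set_option autoImplicit false

open MeasureTheory Metric Set Filter Topology InnerProductGeometry

namespace Pool.Agent.H241R3.CC

open Pool.Agent.H241R3.FV
open Pool.Agent.H241R3.CF (TaskAvg TaskCont TaskLen TaskOne TaskLayer TaskWal TaskVol psi PsiCond ga
  pt kap)

/-- extension of a function on the shell `r0 ≤ |x| ≤ 1` to the punctured ball -/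
noncomputable def ext {n : ℕ} (r0 : ℝ) (K : ℕ) (F : E n → ℝ) (x : E n) : ℝ :=
  F ((max 1 (r0 / ‖x‖)) • x) * (min 1 (‖x‖ / r0)) ^ K

/-- The extension is continuous and positive on the punctured ball, and extends. -/
def TaskExt : Prop :=
  ∀ (d : ℕ) (r0 : ℝ), 0 < r0 → r0 < 1 → ∀ (K : ℕ) (F : E (d + 1) → ℝ),
    ContinuousOn F (closedBall 0 1 \ ball 0 r0) →
    (∀ x ∈ closedBall (0 : E (d + 1)) 1 \ ball 0 r0, 0 < F x) →
    ContinuousOn (ext r0 K F) (closedBall 0 1 \ {0}) ∧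
    (∀ x ∈ closedBall (0 : E (d + 1)) 1 \ {0}, 0 < ext r0 K F x) ∧
    (∀ x : E (d + 1), r0 ≤ ‖x‖ → ext r0 K F x = F x)

/-- The inner part has small volume. -/
def TaskExtVol : Prop :=
  ∀ (d : ℕ) (r0 : ℝ), 0 < r0 → r0 < 1 → ∀ (F : E (d + 1) → ℝ),
    ContinuousOn F (closedBall 0 1 \ ball 0 r0) →
    (∀ x ∈ closedBall (0 : E (d + 1)) 1 \ ball 0 r0, 0 < F x) →
    ∀ ε : ℝ, 0 < ε → ∃ K : ℕ,
      ∫⁻ x in ball (0 : E (d + 1)) 1, ENNReal.ofReal (ext r0 K F x ^ (d + 1)) ≤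
      (∫⁻ x in ball (0 : E (d + 1)) 1 \ ball 0 r0, ENNReal.ofReal (F x ^ (d + 1))) +
        ENNReal.ofReal ε

/-- The test curves inside the shell. -/
def TaskPathC : Prop :=
  TaskAvg → TaskLen → ∀ (d : ℕ) (_ : 1 ≤ d) (r0 : ℝ), 0 < r0 → r0 < 1 →
    ∀ F : E (d + 1) → ℝ, ContinuousOn F (closedBall 0 1 \ {0}) →
    (∀ x ∈ closedBall (0 : E (d + 1)) 1 \ {0}, 0 < F x) →
    ∀ (M : Type) [MetricSpace M] (map : E (d + 1) → M),
    (∀ (a b : ℝ) (γ : ℝ → E (d + 1)), a ≤ b → ContDiff ℝ 1 γ →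
      (∀ t ∈ Icc a b, γ t ∈ closedBall (0 : E (d + 1)) 1 \ ball 0 r0) →
      dist (map (γ a)) (map (γ b)) ≤ ∫ t in a..b, F (γ t) * ‖deriv γ t‖) →
    (∀ x : E (d + 1), ‖x‖ = 1 → Real.pi ≤ dist (map x) (map (-x))) →
    ∀ (a b : ℝ) (w : ℝ → ℝ), 0 ≤ a → a ≤ -Real.log r0 → 0 ≤ b → Continuous w →
      2 * (∫ r in (0 : ℝ)..a, w r) + b = Real.pi →
      Real.pi ≤ 2 * (∫ r in (0 : ℝ)..a, psi F (-r) * √(1 + w r ^ 2)) + psi F (-a) * b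

/-- The averaged width of the shell. -/
def TaskWidthC : Prop :=
  TaskAvg → TaskLen → ∀ (d : ℕ) (_ : 1 ≤ d) (r0 : ℝ), 0 < r0 → r0 < 1 →
    ∀ F : E (d + 1) → ℝ, ContinuousOn F (closedBall 0 1 \ {0}) →
    (∀ x ∈ closedBall (0 : E (d + 1)) 1 \ {0}, 0 < F x) →
    ∀ (M : Type) [MetricSpace M] (map : E (d + 1) → M),
    (∀ (a b : ℝ) (γ : ℝ → E (d + 1)), a ≤ b → ContDiff ℝ 1 γ →
      (∀ t ∈ Icc a b, γ t ∈ closedBall (0 : E (d + 1)) 1 \ ball 0 r0) →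
      dist (map (γ a)) (map (γ b)) ≤ ∫ t in a..b, F (γ t) * ‖deriv γ t‖) →
    (∀ x : E (d + 1), ‖x‖ = 1 → Real.pi ≤ dist (map x) (map (-x))) →
    ((∀ x : E (d + 1), ‖x‖ = r0 → map x = map (-x)) ∨
      (∀ x y : E (d + 1), ‖x‖ = 1 → ‖y‖ = r0 → Real.pi / 2 ≤ dist (map x) (map y))) →
    Real.pi ≤ 2 * (∫ r in (0 : ℝ)..(-Real.log r0), psi F (-r))

/-- The main statement. -/
def MainCC : Prop :=
  ∀ (d : ℕ), 1 ≤ d → ∀ (M : Type) [MetricSpace M] (S : ConfCollar d M), S.Antipodal → S.Core →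
    ENNReal.ofReal ((d + 2 : ℝ) * om (d + 2) / 2) ≤ S.vol

end Pool.Agent.H241R3.CC
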