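import Pool.Agent.H241R3.CC.Stmts

/-!
# `TaskExt`: extension of the conformal factor to the punctured ball (helper662)
-/

set_option autoImplicit false

open Metric Set

namespace Pool.Agent.H241R3.CC.TExt

open Pool.Agent.H241R3.FV Pool.Agent.H241R3.CC

theorem norm_phi {n : ℕ} {r0 : ℝ} (_hr : 0 < r0) {x : E n} (hx : x ≠ 0) :
    ‖(max 1 (r0 / ‖x‖)) • x‖ = max ‖x‖ r0 := by
  have hx' : 0 < ‖x‖ := norm_pos_iff.2 hx
  have h1 : (0 : ℝ) ≤ max 1 (r0 / ‖x‖) := zero_le_one.trans (le_max_left _ _)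
  rw [norm_smul, Real.norm_of_nonneg h1, max_mul_of_nonneg _ _ hx'.le, one_mul,
    div_mul_cancel₀ _ hx'.ne']

theorem phi_mem {n : ℕ} {r0 : ℝ} (hr : 0 < r0) (hr1 : r0 < 1) {x : E n}
    (hx : x ∈ closedBall (0 : E n) 1 \ {0}) :
    (max 1 (r0 / ‖x‖)) • x ∈ closedBall (0 : E n) 1 \ ball 0 r0 := by
  obtain ⟨h1, h2⟩ := hx
  rw [mem_closedBall_zero_iff] at h1
  have h2' : x ≠ 0 := h2
  refine ⟨?_, ?_⟩
  · rw [mem_closedBall_zero_iff, norm_phi hr h2']
    exact max_le h1 hr1.le
  · rw [mem_ball_zero_iff, norm_phi hr h2', not_lt]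
    exact le_max_right _ _

theorem taskExt : TaskExt := by
  intro d r0 hr hr1 K F hF hpos
  refine ⟨?_, ?_, ?_⟩
  · unfold ext
    have hphi : ContinuousOn (fun x : E (d + 1) => (max 1 (r0 / ‖x‖)) • x)
        (closedBall 0 1 \ {0}) := by
      have h1 : ContinuousOn (fun x : E (d + 1) => max 1 (r0 / ‖x‖)) (closedBall 0 1 \ {0}) := by
        apply ContinuousOn.sup continuousOn_const
        apply ContinuousOn.div continuousOn_const continuous_norm.continuousOn
        rintro x ⟨_, hx⟩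
        exact norm_ne_zero_iff.2 hx
      exact h1.smul (continuousOn_id' _)
    apply ContinuousOn.mul
    · exact hF.comp hphi fun x hx => phi_mem hr hr1 hx
    · apply Continuous.continuousOn
      fun_prop
  · intro x hx
    unfold ext
    have hx' : 0 < ‖x‖ := norm_pos_iff.2 hx.2
    apply mul_pos (hpos _ (phi_mem hr hr1 hx))
    apply pow_pos
    exact lt_min zero_lt_one (div_pos hx' hr)
  · intro x hx
    unfold ext
    have hx' : 0 < ‖x‖ := hr.trans_le hx
    rw [max_eq_left ((div_le_one hx').2 hx), min_eq_left ((one_le_div hr).2 hx), one_smul, one_pow,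
      mul_one]

end Pool.Agent.H241R3.CC.TExt
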