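import Pool.Agent.H241R3.CC.Stmts

set_option autoImplicit false

open MeasureTheory Metric Set Filter Topology

namespace Pool.Agent.H241R3.CC.TExtVol

open Pool.Agent.H241R3.FV Pool.Agent.H241R3.CC

theorem ext_outer {n : ℕ} {r0 : ℝ} (h0 : 0 < r0) (K : ℕ) (F : E n → ℝ) {x : E n}
    (hx : r0 ≤ ‖x‖) : ext r0 K F x = F x := by
  have hxp : 0 < ‖x‖ := h0.trans_le hx
  have h1 : max 1 (r0 / ‖x‖) = 1 := max_eq_left ((div_le_one hxp).2 hx)
  have h2 : min 1 (‖x‖ / r0) = 1 := min_eq_left ((one_le_div h0).2 hx)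
  simp only [ext, h1, h2, one_smul, one_pow, mul_one]

theorem taskExtVol : TaskExtVol := by
  intro d r0 h0 h1 F hF hpos ε hε
  set S : Set (E (d + 1)) := closedBall 0 1 \ ball 0 r0 with hS
  have hScomp : IsCompact S := (isCompact_closedBall _ _).diff isOpen_ball
  obtain ⟨C, hC⟩ := (hScomp.image_of_continuousOn hF).bddAbove
  have hC' : ∀ x ∈ S, F x ≤ C := fun x hx => hC ⟨x, hx, rfl⟩
  -- bound on the inner part
  have hin : ∀ (K : ℕ), 1 ≤ K → ∀ x ∈ ball (0 : E (d + 1)) r0,
      ext r0 K F x ^ (d + 1) ≤ (max C 0 * (‖x‖ / r0) ^ K) ^ (d + 1) := by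
    intro K hK x hx
    rw [mem_ball_zero_iff] at hx
    have hq : ‖x‖ / r0 ≤ 1 := (div_le_one h0).2 hx.le
    have h2 : min 1 (‖x‖ / r0) = ‖x‖ / r0 := min_eq_right hq
    have h3 : 0 ≤ ‖x‖ / r0 := by positivity
    by_cases hx0 : x = 0
    · subst hx0
      have hK' : K ≠ 0 := by omega
      simp [ext, hK']
    · have hxp : 0 < ‖x‖ := norm_pos_iff.2 hx0
      have h4 : max 1 (r0 / ‖x‖) = r0 / ‖x‖ := max_eq_right ((one_le_div hxp).2 hx.le)
      have hmem : (r0 / ‖x‖) • x ∈ S := by
        have hn : ‖(r0 / ‖x‖) • x‖ = r0 := by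
          rw [norm_smul, Real.norm_of_nonneg (by positivity)]
          field_simp
        constructor
        · rw [mem_closedBall_zero_iff, hn]
          exact h1.le
        · rw [mem_ball_zero_iff, hn]
          exact lt_irrefl _
      have h5 : ext r0 K F x = F ((r0 / ‖x‖) • x) * (‖x‖ / r0) ^ K := by
        simp only [ext, h2, h4]
      rw [h5]
      have h6 : 0 < F ((r0 / ‖x‖) • x) := hpos _ hmem
      apply pow_le_pow_left₀ (by positivity)
      exact mul_le_mul_of_nonneg_right ((hC' _ hmem).trans (le_max_left _ _)) (by positivity)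
  -- the bound tends to zero
  have hlim : Tendsto (fun K : ℕ => ∫⁻ x in ball (0 : E (d + 1)) r0,
      ENNReal.ofReal ((max C 0 * (‖x‖ / r0) ^ K) ^ (d + 1))) atTop (𝓝 0) := by
    have hz : ∫⁻ _ in ball (0 : E (d + 1)) r0, (0 : ENNReal) = 0 := by simp
    rw [← hz]
    apply tendsto_lintegral_of_dominated_convergence
      (fun _ => ENNReal.ofReal ((max C 0) ^ (d + 1)))
    · intro K
      apply Measurable.ennreal_ofReal
      fun_prop
    · intro K
      refine (ae_restrict_iff' measurableSet_ball).2 (Eventually.of_forall ?_)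
      intro x hx
      rw [mem_ball_zero_iff] at hx
      apply ENNReal.ofReal_le_ofReal
      apply pow_le_pow_left₀ (by positivity)
      have hq : ‖x‖ / r0 ≤ 1 := (div_le_one h0).2 hx.le
      have h3 : 0 ≤ ‖x‖ / r0 := by positivity
      exact mul_le_of_le_one_right (le_max_right _ _) (pow_le_one₀ h3 hq)
    · rw [setLIntegral_const]
      exact ENNReal.mul_ne_top ENNReal.ofReal_ne_top measure_ball_lt_top.ne
    · refine (ae_restrict_iff' measurableSet_ball).2 (Eventually.of_forall ?_)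
      intro x hx
      rw [mem_ball_zero_iff] at hx
      have hq : ‖x‖ / r0 < 1 := (div_lt_one h0).2 hx
      have h3 : 0 ≤ ‖x‖ / r0 := by positivity
      have h4 : Tendsto (fun K : ℕ => (max C 0 * (‖x‖ / r0) ^ K) ^ (d + 1)) atTop
          (𝓝 ((max C 0 * 0) ^ (d + 1))) :=
        ((tendsto_pow_atTop_nhds_zero_of_lt_one h3 hq).const_mul _).pow _
      have h5 := ENNReal.tendsto_ofReal h4
      simpa using h5
  have hev : ∀ᶠ K : ℕ in atTop, ∫⁻ x in ball (0 : E (d + 1)) r0,
      ENNReal.ofReal ((max C 0 * (‖x‖ / r0) ^ K) ^ (d + 1)) < ENNReal.ofReal ε :=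
    hlim.eventually (gt_mem_nhds (ENNReal.ofReal_pos.2 hε))
  obtain ⟨K, hK1, hK2⟩ := ((eventually_ge_atTop 1).and hev).exists
  refine ⟨K, ?_⟩
  have hsub : ball (0 : E (d + 1)) 1 ⊆ (ball (0 : E (d + 1)) 1 \ ball 0 r0) ∪ ball 0 r0 := by
    intro x hx
    by_cases h : x ∈ ball (0 : E (d + 1)) r0
    · exact Or.inr h
    · exact Or.inl ⟨hx, h⟩
  calc ∫⁻ x in ball (0 : E (d + 1)) 1, ENNReal.ofReal (ext r0 K F x ^ (d + 1))
      ≤ ∫⁻ x in (ball (0 : E (d + 1)) 1 \ ball 0 r0) ∪ ball 0 r0,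
          ENNReal.ofReal (ext r0 K F x ^ (d + 1)) := lintegral_mono_set hsub
    _ ≤ (∫⁻ x in ball (0 : E (d + 1)) 1 \ ball 0 r0, ENNReal.ofReal (ext r0 K F x ^ (d + 1))) +
          ∫⁻ x in ball (0 : E (d + 1)) r0, ENNReal.ofReal (ext r0 K F x ^ (d + 1)) :=
        lintegral_union_le _ _ _
    _ ≤ _ := by
        apply add_le_add
        · apply le_of_eq
          apply setLIntegral_congr_fun (measurableSet_ball.diff measurableSet_ball)
          intro x hx
          have hx2 : r0 ≤ ‖x‖ := by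
            have := hx.2
            rw [mem_ball_zero_iff, not_lt] at this
            exact this
          simp only [ext_outer h0 K F hx2]
        · refine le_trans ?_ hK2.le
          apply setLIntegral_mono' measurableSet_ball
          intro x hx
          exact ENNReal.ofReal_le_ofReal (hin K hK1 x hx)

end Pool.Agent.H241R3.CC.TExtVol
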