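import Pool.Agent.H241R3.CC.Stmts
import Pool.Agent.H241R3.CF.TPath

/-! # TaskPathC (helper980), following `CF.TPath` of helper192 -/

set_option autoImplicit false

open MeasureTheory Metric Set Filter Topology InnerProductGeometry

namespace Pool.Agent.H241R3.CC.TPathC

open Pool.Agent.H241R3.FV Pool.Agent.H241R3.CF Pool.Agent.H241R3.CF.TPath
open Pool.Agent.H892R2.Proj (O haarO)

theorem dist_curveC {d : ℕ} (hd : 1 ≤ d) (r0 : ℝ) (hr0 : 0 < r0) (F : FV.E (d + 1) → ℝ)
    (M : Type) [MetricSpace M] (map : FV.E (d + 1) → M)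
    (hdist : ∀ (a b : ℝ) (γ : ℝ → FV.E (d + 1)), a ≤ b → ContDiff ℝ 1 γ →
      (∀ t ∈ Icc a b, γ t ∈ closedBall (0 : FV.E (d + 1)) 1 \ ball 0 r0) →
      dist (map (γ a)) (map (γ b)) ≤ ∫ t in a..b, F (γ t) * ‖deriv γ t‖)
    (g : O (d + 1)) (a b : ℝ) (T Θ : ℝ → ℝ) (hab : a ≤ b) (hT : ContDiff ℝ 1 T)
    (hΘ : ContDiff ℝ 1 Θ) (hT0 : ∀ t ∈ Icc a b, T t ≤ 0) (hT1 : ∀ t ∈ Icc a b, Real.log r0 ≤ T t) :
    dist (map (ga g (pt hd (T a) (Θ a)))) (map (ga g (pt hd (T b) (Θ b)))) ≤
      ∫ t in a..b, F (ga g (pt hd (T t) (Θ t))) *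
        ‖deriv (fun t => ga g (pt hd (T t) (Θ t))) t‖ := by
  refine hdist a b (fun t => ga g (pt hd (T t) (Θ t))) hab (ga_pt_contDiff hd g T Θ hT hΘ) ?_
  intro t ht
  have h : ‖ga g (pt hd (T t) (Θ t))‖ = Real.exp (T t) := by rw [ga_norm, pt_norm]
  refine ⟨?_, ?_⟩
  · rw [mem_closedBall_zero_iff, h]
    exact Real.exp_le_one_iff.mpr (hT0 t ht)
  · rw [mem_ball_zero_iff, h, not_lt]
    calc r0 = Real.exp (Real.log r0) := (Real.exp_log hr0).symm
      _ ≤ Real.exp (T t) := Real.exp_le_exp.2 (hT1 t ht)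

theorem main : TaskPathC := by
  intro hAvg hLen d hd r0 hr0 hr1 F hF hFpos M _ map hdist hS a b w ha har hb hw hab
  set A : ℝ := ∫ r in (0 : ℝ)..a, w r with hA
  -- the three families
  have hL1 := hLen hAvg d hd F hF 0 a (fun t => -t) (fun t => ∫ r in (0 : ℝ)..t, w r) ha
    contDiff_neg (W_contDiff w hw) (fun t ht => by simpa using ht.1)
  have hL2 := hLen hAvg d hd F hF 0 b (fun _ => -a) (fun t => A + t) hb
    contDiff_const (contDiff_const.add contDiff_id) (fun t _ => by simpa using ha)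
  have hc3 : ContDiff ℝ 1 (fun t => Real.pi - ∫ r in (0 : ℝ)..(a - t), w r) :=
    contDiff_const.sub ((W_contDiff w hw).comp (contDiff_const.sub contDiff_id))
  have hL3 := hLen hAvg d hd F hF 0 a (fun t => t - a)
    (fun t => Real.pi - ∫ r in (0 : ℝ)..(a - t), w r) ha
    (contDiff_id.sub contDiff_const) hc3 (fun t ht => by linarith [ht.2])
  -- pointwise inequality
  have hpt : ∀ g : O (d + 1), Real.pi ≤
      (∫ t in (0 : ℝ)..a, F (ga g (pt hd (-t) (∫ r in (0 : ℝ)..t, w r))) *
        ‖deriv (fun t => ga g (pt hd (-t) (∫ r in (0 : ℝ)..t, w r))) t‖) +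
      (∫ t in (0 : ℝ)..b, F (ga g (pt hd (-a) (A + t))) *
        ‖deriv (fun t => ga g (pt hd (-a) (A + t))) t‖) +
      (∫ t in (0 : ℝ)..a, F (ga g (pt hd (t - a) (Real.pi - ∫ r in (0 : ℝ)..(a - t), w r))) *
        ‖deriv (fun t => ga g (pt hd (t - a) (Real.pi - ∫ r in (0 : ℝ)..(a - t), w r))) t‖) := by
    intro g
    have d1 := dist_curveC hd r0 hr0 F M map hdist g 0 a (fun t => -t)
      (fun t => ∫ r in (0 : ℝ)..t, w r) ha
      contDiff_neg (W_contDiff w hw) (fun t ht => by simpa using ht.1)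
      (fun t ht => by have := ht.2; show Real.log r0 ≤ -t; linarith)
    have d2 := dist_curveC hd r0 hr0 F M map hdist g 0 b (fun _ => -a) (fun t => A + t) hb
      contDiff_const (contDiff_const.add contDiff_id) (fun t _ => by simpa using ha)
      (fun t ht => by show Real.log r0 ≤ -a; linarith)
    have d3 := dist_curveC hd r0 hr0 F M map hdist g 0 a (fun t => t - a)
      (fun t => Real.pi - ∫ r in (0 : ℝ)..(a - t), w r) ha
      (contDiff_id.sub contDiff_const) hc3 (fun t ht => by linarith [ht.2])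
      (fun t ht => by have := ht.1; show Real.log r0 ≤ t - a; linarith)
    simp only [neg_zero, intervalIntegral.integral_same, add_zero, zero_sub, sub_zero, sub_self]
      at d1 d2 d3
    rw [← hA] at d1 d3
    have e1 : A + b = Real.pi - A := by linarith
    rw [e1] at d2
    have hx : ‖ga g (pt hd 0 0)‖ = 1 := by rw [ga_norm, pt_norm, Real.exp_zero]
    have h0 := hS _ hx
    rw [← ga_neg, ← pt_pi] at h0
    have t1 := dist_triangle4 (map (ga g (pt hd 0 0))) (map (ga g (pt hd (-a) A)))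
      (map (ga g (pt hd (-a) (Real.pi - A)))) (map (ga g (pt hd 0 Real.pi)))
    linarith
  have hint := integral_mono (μ := haarO (d + 1)) (integrable_const Real.pi)
    ((hL1.1.add hL2.1).add hL3.1) (fun g => hpt g)
  have hconst : ∫ _g : O (d + 1), Real.pi ∂(haarO (d + 1)) = Real.pi := by simp
  rw [hconst] at hint
  have hsum : ∫ g : O (d + 1), (((fun g : O (d + 1) => ∫ t in (0 : ℝ)..a,
        F (ga g (pt hd (-t) (∫ r in (0 : ℝ)..t, w r))) *
        ‖deriv (fun t => ga g (pt hd (-t) (∫ r in (0 : ℝ)..t, w r))) t‖) +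
      (fun g : O (d + 1) => ∫ t in (0 : ℝ)..b, F (ga g (pt hd (-a) (A + t))) *
        ‖deriv (fun t => ga g (pt hd (-a) (A + t))) t‖)) +
      (fun g : O (d + 1) => ∫ t in (0 : ℝ)..a,
        F (ga g (pt hd (t - a) (Real.pi - ∫ r in (0 : ℝ)..(a - t), w r))) *
        ‖deriv (fun t => ga g (pt hd (t - a) (Real.pi - ∫ r in (0 : ℝ)..(a - t), w r))) t‖)) g
      ∂(haarO (d + 1))
      = (∫ t in (0 : ℝ)..a, psi F (-t) * √(1 + w t ^ 2)) + psi F (-a) * b +
        ∫ t in (0 : ℝ)..a, psi F (-t) * √(1 + w t ^ 2) := by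
    rw [integral_add' (hL1.1.add hL2.1) hL3.1, integral_add' hL1.1 hL2.1, hL1.2, hL2.2, hL3.2]
    congr 1
    · congr 1
      · refine intervalIntegral.integral_congr (fun t _ => ?_)
        rw [(W_hasDeriv w hw t).deriv]
        have : deriv (fun t : ℝ => -t) t = -1 := (hasDerivAt_neg t).deriv
        rw [this]
        norm_num
      · have h1 : ∀ t : ℝ, psi F (-a) * √(deriv (fun _ : ℝ => -a) t ^ 2 +
            deriv (fun t => A + t) t ^ 2) = psi F (-a) := by
          intro t
          have e1 : deriv (fun _ : ℝ => -a) t = 0 := deriv_const _ _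
          have e2 : deriv (fun t => A + t) t = 1 := ((hasDerivAt_id t).const_add A).deriv
          rw [e1, e2]; norm_num
        rw [intervalIntegral.integral_congr (g := fun _ => psi F (-a)) (fun t _ => h1 t)]
        simp
        ring
    · have h1 : ∀ t : ℝ, psi F (t - a) * √(deriv (fun t : ℝ => t - a) t ^ 2 +
            deriv (fun t => Real.pi - ∫ r in (0 : ℝ)..(a - t), w r) t ^ 2) =
            (fun r => psi F (-r) * √(1 + w r ^ 2)) (a - t) := by
        intro t
        have e1 : deriv (fun t : ℝ => t - a) t = 1 := ((hasDerivAt_id t).sub_const a).deriv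
        have e2 : HasDerivAt (fun t => Real.pi - ∫ r in (0 : ℝ)..(a - t), w r) (w (a - t)) t := by
          have h2 : HasDerivAt (fun t : ℝ => a - t) (-1) t := by
            simpa using (hasDerivAt_id t).const_sub a
          have h3 := (W_hasDeriv w hw (a - t)).comp t h2
          have h4 := h3.const_sub Real.pi
          have h5 : -(w (a - t) * -1) = w (a - t) := by ring
          rw [h5] at h4
          exact h4
        rw [e1, e2.deriv]
        have e3 : -(a - t) = t - a := by ring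
        simp only [e3]
        norm_num
      rw [intervalIntegral.integral_congr (g := fun t => (fun r => psi F (-r) * √(1 + w r ^ 2)) (a - t))
        (fun t _ => h1 t)]
      rw [intervalIntegral.integral_comp_sub_left (fun r => psi F (-r) * √(1 + w r ^ 2)) a]
      simp
  have hfin : Real.pi ≤ (∫ t in (0 : ℝ)..a, psi F (-t) * √(1 + w t ^ 2)) + psi F (-a) * b +
        ∫ t in (0 : ℝ)..a, psi F (-t) * √(1 + w t ^ 2) := by
    rw [← hsum]
    exact hint
  linarith

end Pool.Agent.H241R3.CC.TPathC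

namespace Pool.Agent.H241R3.CC

theorem taskPathC : TaskPathC := TPathC.main

end Pool.Agent.H241R3.CC
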