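import Pool.Agent.H241R3.CC.Stmts
import Pool.Agent.H241R3.CF.TPath

/-! # TaskWidthC (helper432) -/

set_option autoImplicit false

open MeasureTheory Metric Set Filter Topology InnerProductGeometry

namespace Pool.Agent.H241R3.CC.TWidthC

open Pool.Agent.H241R3.FV
open Pool.Agent.H241R3.CF (TaskAvg TaskCont TaskLen TaskOne TaskLayer TaskWal TaskVol psi PsiCond ga
  pt kap)
open Pool.Agent.H241R3.CF.TPath (ga_neg ga_norm pt_norm ga_pt_contDiff)
open Pool.Agent.H892R2.Proj (O haarO)

theorem pt_neg {d : ℕ} (hd : 1 ≤ d) (t : ℝ) : pt hd t Real.pi = -(pt hd t 0) := by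
  unfold Pool.Agent.H241R3.CF.pt
  simp

theorem main : TaskWidthC := by
  intro hAvg hLen d hd r0 hr0 hr1 F hF hFpos M _ map hdist hant hcore
  set A : ℝ := -Real.log r0 with hA
  have hA0 : 0 ≤ A := by
    rw [hA]; linarith [Real.log_neg hr0 hr1]
  have hc : ∀ θ : ℝ, ContDiff ℝ 1 (fun _ : ℝ => θ) := fun θ => contDiff_const
  have hL := fun θ : ℝ => hLen hAvg d hd F hF 0 A (fun t => -t) (fun _ => θ) hA0
    contDiff_neg (hc θ) (fun t ht => by simpa using ht.1)
  have hval : ∀ θ : ℝ, ∫ t in (0 : ℝ)..A, psi F (-t) *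
      √(deriv (fun t : ℝ => -t) t ^ 2 + deriv (fun _ : ℝ => θ) t ^ 2) =
      ∫ t in (0 : ℝ)..A, psi F (-t) := by
    intro θ
    refine intervalIntegral.integral_congr (fun t _ => ?_)
    have e1 : deriv (fun t : ℝ => -t) t = -1 := (hasDerivAt_neg t).deriv
    have e2 : deriv (fun _ : ℝ => θ) t = 0 := deriv_const _ _
    simp only [e1, e2]
    norm_num
  -- single curves
  have hcurve : ∀ (θ : ℝ) (g : O (d + 1)),
      dist (map (ga g (pt hd 0 θ))) (map (ga g (pt hd (-A) θ))) ≤
        ∫ t in (0 : ℝ)..A, F (ga g (pt hd (-t) θ)) *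
          ‖deriv (fun t => ga g (pt hd (-t) θ)) t‖ := by
    intro θ g
    have h := hdist 0 A (fun t => ga g (pt hd (-t) θ)) hA0
      (ga_pt_contDiff hd g (fun t => -t) (fun _ => θ) contDiff_neg (hc θ)) (by
        intro t ht
        have h : ‖ga g (pt hd (-t) θ)‖ = Real.exp (-t) := by rw [ga_norm, pt_norm]
        refine ⟨?_, ?_⟩
        · rw [mem_closedBall_zero_iff, h]
          exact Real.exp_le_one_iff.mpr (by linarith [ht.1])
        · rw [mem_ball_zero_iff, h, not_lt]
          rw [← Real.log_le_iff_le_exp hr0]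
          linarith [ht.2])
    simpa using h
  rcases hcore with hglue | hwide
  · have hpt : ∀ g : O (d + 1), Real.pi ≤
        (∫ t in (0 : ℝ)..A, F (ga g (pt hd (-t) 0)) *
          ‖deriv (fun t => ga g (pt hd (-t) 0)) t‖) +
        (∫ t in (0 : ℝ)..A, F (ga g (pt hd (-t) Real.pi)) *
          ‖deriv (fun t => ga g (pt hd (-t) Real.pi)) t‖) := by
      intro g
      have d1 := hcurve 0 g
      have d2 := hcurve Real.pi g
      have hx : ‖ga g (pt hd 0 0)‖ = 1 := by rw [ga_norm, pt_norm, Real.exp_zero]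
      have hy : ‖ga g (pt hd (-A) 0)‖ = r0 := by
        rw [ga_norm, pt_norm, hA, neg_neg, Real.exp_log hr0]
      have h0 := hant _ hx
      have h1 := hglue _ hy
      rw [pt_neg, pt_neg, ga_neg, ga_neg, ← h1] at d2
      have t1 := dist_triangle (map (ga g (pt hd 0 0))) (map (ga g (pt hd (-A) 0)))
        (map (-(ga g (pt hd 0 0))))
      rw [dist_comm (map (ga g (pt hd (-A) 0)))] at t1
      linarith
    have hint := integral_mono (μ := haarO (d + 1)) (integrable_const Real.pi)
      ((hL 0).1.add (hL Real.pi).1) (fun g => hpt g)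
    have hconst : ∫ _g : O (d + 1), Real.pi ∂(haarO (d + 1)) = Real.pi := by simp
    rw [hconst, integral_add' (hL 0).1 (hL Real.pi).1, (hL 0).2, (hL Real.pi).2, hval, hval]
      at hint
    linarith
  · have hpt : ∀ g : O (d + 1), Real.pi / 2 ≤
        (∫ t in (0 : ℝ)..A, F (ga g (pt hd (-t) 0)) *
          ‖deriv (fun t => ga g (pt hd (-t) 0)) t‖) := by
      intro g
      have d1 := hcurve 0 g
      have hx : ‖ga g (pt hd 0 0)‖ = 1 := by rw [ga_norm, pt_norm, Real.exp_zero]
      have hy : ‖ga g (pt hd (-A) 0)‖ = r0 := by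
        rw [ga_norm, pt_norm, hA, neg_neg, Real.exp_log hr0]
      linarith [hwide _ _ hx hy]
    have hint := integral_mono (μ := haarO (d + 1)) (integrable_const (Real.pi / 2))
      (hL 0).1 (fun g => hpt g)
    have hconst : ∫ _g : O (d + 1), Real.pi / 2 ∂(haarO (d + 1)) = Real.pi / 2 := by simp
    rw [hconst, (hL 0).2, hval] at hint
    linarith

end Pool.Agent.H241R3.CC.TWidthC

namespace Pool.Agent.H241R3.CC

theorem taskWidthC : TaskWidthC := TWidthC.main

end Pool.Agent.H241R3.CC
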